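import Pool.Agent.Run7.h119.RX.RandR
import Pool.Agent.H340R2.LW

/-!
# The numbers `e^{P(π)}` for almost all polynomials `P`

The number `e^{π²}` is the member `P = X²` of the family `e^{P(π)}`.  Let `LogForms` be the space of the linear forms
in `1` and logarithms of algebraic numbers, with algebraic coefficients (it contains `1` and `π`), and let `F` be a
space of complex numbers of finite dimension `N` over the field of algebraic numbers.  Let `t` be any
transcendental complex number, for instance `π`.  For a number `x` let `Bad F x` be the statement that one of the numbers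
`e^{l + f + α x}` is algebraic, where `l ∈ LogForms`, `f ∈ F` and `α ≠ 0` is algebraic.  So if `x` is not bad, then all
numbers `e^{α x} · ∏ α_j^{β_j} · e^{γ + f}`, with algebraic `α ≠ 0`, `γ`, `β_j`, `α_j ≠ 0`, are transcendental.

**Theorem.** (1) For at most `(2M+1)^(2√D + 1 + N)` of the `(2M+1)^(D+1)` integral polynomials `P` of degree at most `D`
with coefficients in `[-M, M]` the number `P(t)` is bad.  In particular `e^{P(t)}` is algebraic for at most
`(2M+1)^(2√D + 1)` of them.

(2) Let the coefficients `ξ_j` of `P = ∑_{j ≤ D} ξ_j X^j` be independent random algebraic numbers, none of which takes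
a value with probability larger than `p`.  Then `P(t)` is bad with probability at most `p^(D - 2√D - N)`.

(3) Let `ξ_0, ξ_1, …` be an infinite sequence of such numbers, `p < 1`, for instance random signs, and let
`P_D = ∑_{j ≤ D} ξ_j X^j`.  Almost surely, all but finitely many of the numbers `P_0(t), P_1(t), P_2(t), …` are not bad.
So almost surely all but finitely many of the numbers `e^{P_D(π)}` are transcendental, and the same is
true for all `e^{α P_D(π)}`, with all algebraic numbers `α ≠ 0` at the same time.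

(4) If `t_1, …, t_n` are any complex numbers and the coefficients of the polynomial `P` in `n` variables, of degree
less than `D` in each variable, are independent random algebraic numbers as above, then `P(t_1, …, t_n)` is bad
with probability at most `p^(H - (4^n + 1) √H - N)`, where `H` is the dimension over the algebraic numbers of the
space of the values at `(t_1, …, t_n)` of the polynomials of degree less than `D` in each variable with algebraic
coefficients.

The exceptional polynomials form a space of dimension at most `2√D + 1 + N`: this is the theorem of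
helper788 (`MP_4c2ad3_nt.PolynomialExponents`, `z = 1`), which uses the hyperplane case of the linear subgroup
theorem of Waldschmidt and Roy.
-/

set_option autoImplicit false

noncomputable section

namespace Pool.Agent.Results.MP_0c330e_nt.PolynomialsInPi

open MeasureTheory ProbabilityTheory Filter Finset

/-- The field of algebraic numbers. -/
abbrev Qbar : IntermediateField ℚ ℂ := algebraicClosure ℚ ℂ

/-- The linear combinations, with algebraic coefficients, of `1` and logarithms of algebraic numbers. -/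
def LogForms : Submodule Qbar ℂ :=
  Submodule.span Qbar ({1} ∪ {z : ℂ | IsAlgebraic ℚ (Complex.exp z)})

/-- One of the numbers `e^(l + f + α x)` is algebraic, where `l` is in `LogForms`, `f` is in `F` and `α ≠ 0` is
algebraic. -/
def Bad (F : Submodule Qbar ℂ) (x : ℂ) : Prop :=
  ∃ α : ℂ, IsAlgebraic ℚ α ∧ α ≠ 0 ∧ ∃ l ∈ LogForms, ∃ f ∈ F,
    IsAlgebraic ℚ (Complex.exp (l + f + α * x))

/-- The dimension of the space of the values at `(t_1, …, t_n)` of the polynomials with algebraic coefficients
of degree less than `D` in each variable. -/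
def dimV {n : ℕ} (t : Fin n → ℂ) (D : ℕ) : ℕ :=
  Module.finrank Qbar (Submodule.span Qbar
    (Set.range fun e : Fin n → Fin D => ∏ i, t i ^ (e i : ℕ)))

/-- The `ξ_i` are independent random numbers, they are algebraic, and none of them takes any value with a
probability larger than `p`.  The index `i` runs through a finite or infinite set. -/
structure Coefficients {Ω : Type} [MeasurableSpace Ω] (μ : Measure Ω) {ι : Type} (ξ : ι → Ω → ℂ)
    (p : ℝ) : Prop where
  measurable : ∀ i, Measurable (ξ i)
  independent : iIndepFun ξ μ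
  algebraic : ∀ i ω, IsAlgebraic ℚ (ξ i ω)
  atoms : ∀ i x, μ.real {ω | ξ i ω = x} ≤ p

/-- Statement (1). -/
def IntegralPolynomials : Prop :=
  ∀ (F : Submodule Qbar ℂ), Module.Finite Qbar F → ∀ t : ℂ, Transcendental ℚ t →
    ∀ (D M : ℕ) (A : Finset (Fin (D + 1) → ℤ)),
      (∀ P ∈ A, (∀ j, |P j| ≤ M) ∧ Bad F (∑ j, (P j : ℂ) * t ^ (j : ℕ))) →
      (A.card : ℝ) ≤ (2 * M + 1) ^ (2 * √(D : ℝ) + 1 + Module.finrank Qbar F)

/-- Statement (2). -/
def RandomPolynomials : Prop :=
  ∀ (F : Submodule Qbar ℂ), Module.Finite Qbar F → ∀ t : ℂ, Transcendental ℚ t →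
    ∀ (D : ℕ) (Ω : Type) (_ : MeasurableSpace Ω) (μ : Measure Ω), IsProbabilityMeasure μ →
      ∀ (p : ℝ) (ξ : Fin (D + 1) → Ω → ℂ), 0 < p → p ≤ 1 → Coefficients μ ξ p →
        μ.real {ω | Bad F (∑ j, ξ j ω * t ^ (j : ℕ))} ≤
          p ^ ((D : ℝ) - 2 * √(D : ℝ) - Module.finrank Qbar F)

/-- Statement (3). -/
def AlmostSurely : Prop :=
  ∀ (F : Submodule Qbar ℂ), Module.Finite Qbar F → ∀ t : ℂ, Transcendental ℚ t →
    ∀ (Ω : Type) (_ : MeasurableSpace Ω) (μ : Measure Ω), IsProbabilityMeasure μ →
      ∀ (p : ℝ) (ξ : ℕ → Ω → ℂ), 0 < p → p < 1 → Coefficients μ ξ p →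
        ∀ᵐ ω ∂μ, ∀ᶠ D : ℕ in atTop, ¬ Bad F (∑ j ∈ range (D + 1), ξ j ω * t ^ j)

/-- Statement (3) for `π`. -/
def ExponentialsInPi : Prop :=
  ∀ (Ω : Type) (_ : MeasurableSpace Ω) (μ : Measure Ω), IsProbabilityMeasure μ →
    ∀ (p : ℝ) (ξ : ℕ → Ω → ℂ), 0 < p → p < 1 → Coefficients μ ξ p →
      ∀ᵐ ω ∂μ, ∀ᶠ D : ℕ in atTop, ∀ α : ℂ, IsAlgebraic ℚ α → α ≠ 0 →
        Transcendental ℚ (Complex.exp (α * ∑ j ∈ range (D + 1), ξ j ω * (Real.pi : ℂ) ^ j))

/-- Statement (4). -/
def SeveralNumbers : Prop :=
  ∀ (F : Submodule Qbar ℂ), Module.Finite Qbar F → ∀ (n : ℕ) (t : Fin n → ℂ) (D : ℕ), 1 ≤ D →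
    ∀ (Ω : Type) (_ : MeasurableSpace Ω) (μ : Measure Ω), IsProbabilityMeasure μ →
      ∀ (p : ℝ) (ξ : (Fin n → Fin D) → Ω → ℂ), 0 < p → p ≤ 1 → Coefficients μ ξ p →
        μ.real {ω | Bad F (∑ e, ξ e ω * ∏ i, t i ^ (e i : ℕ))} ≤
          p ^ ((dimV t D : ℝ) - (4 ^ n + 1) * √(dimV t D : ℝ) - Module.finrank Qbar F)

theorem mem_of_bad {F : Submodule Qbar ℂ} {x : ℂ} (h : Bad F x) : x ∈ LogForms ⊔ F := by
  obtain ⟨α, hα, hα0, l, hl, f, hf, h1⟩ := h
  have h2 : l + f + α * x ∈ LogForms := Submodule.subset_span (Or.inr h1)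
  have h3 : α * x ∈ LogForms ⊔ F := by
    have h4 := Submodule.sub_mem (LogForms ⊔ F) (Submodule.sub_mem (LogForms ⊔ F)
      (Submodule.mem_sup_left h2) (Submodule.mem_sup_left hl)) (Submodule.mem_sup_right hf)
    have h5 : l + f + α * x - l - f = α * x := by ring
    rwa [h5] at h4
  have h6 := Submodule.smul_mem (LogForms ⊔ F)
    (⟨α⁻¹, mem_algebraicClosure_iff.2 hα.inv⟩ : Qbar) h3
  have h7 : (⟨α⁻¹, mem_algebraicClosure_iff.2 hα.inv⟩ : Qbar) • (α * x) = x := by
    change α⁻¹ * (α * x) = x
    rw [← mul_assoc, inv_mul_cancel₀ hα0, one_mul]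
  rwa [h7] at h6

theorem integralPolynomials : IntegralPolynomials := by
  intro F hF t ht D M A hA
  exact Run7.h119.RX.count_one F ht one_ne_zero D M A fun P hP => ⟨(hA P hP).1, by
    rw [one_mul]
    exact mem_of_bad (hA P hP).2⟩

theorem randomPolynomials : RandomPolynomials := by
  intro F hF t ht D Ω mΩ μ hμ p ξ hp0 hp1 h
  refine (measureReal_mono ?_).trans (Run7.h119.RX.prob_one F ht one_ne_zero D μ ξ h.measurable
    h.independent h.algebraic hp0 hp1 h.atoms)
  intro ω hω
  change (1 : ℂ) * _ ∈ LogForms ⊔ F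
  rw [one_mul]
  exact mem_of_bad hω

theorem almostSurely : AlmostSurely := by
  intro F hF t ht Ω mΩ μ hμ p ξ hp0 hp1 h
  have hq : 0 < - Real.log p := by
    have := Real.log_neg hp0 hp1
    linarith
  have h1 := Run7.h119.RX.ae_union F (fun _ => {((1 : ℂ), t)}) (by
    intro D b hb
    rw [Finset.mem_singleton] at hb
    rw [hb]
    exact ⟨one_ne_zero, ht⟩) μ ξ h.measurable h.independent h.algebraic hp0 hp1 h.atoms 1 0
    zero_le_one hq (fun D => by simp)
  filter_upwards [h1] with ω hω
  filter_upwards [hω] with D hD hbad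
  refine hD (1, t) (Finset.mem_singleton_self _) ?_
  rw [one_mul]
  exact mem_of_bad hbad

/-- **Main result.** -/
theorem result : IntegralPolynomials ∧ RandomPolynomials ∧ AlmostSurely ∧ ExponentialsInPi ∧
    SeveralNumbers := by
  refine ⟨integralPolynomials, randomPolynomials, almostSurely, ?_, ?_⟩
  · intro Ω mΩ μ hμ p ξ hp0 hp1 h
    have h1 := almostSurely ⊥ inferInstance (Real.pi : ℂ)
      Pool.Agent.H340R2.LW.transcendental_pi_complex Ω mΩ μ hμ p ξ hp0 hp1 h
    filter_upwards [h1] with ω hω
    filter_upwards [hω] with D hD α hα hα0 halg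
    refine hD ⟨α, hα, hα0, 0, Submodule.zero_mem _, 0, Submodule.zero_mem _, ?_⟩
    rw [add_zero, zero_add]
    exact halg
  · intro F hF n t D hD Ω mΩ μ hμ p ξ hp0 hp1 h
    refine (measureReal_mono ?_).trans (Run7.h119.RX.prob_box F t one_ne_zero hD μ ξ h.measurable
      h.independent h.algebraic hp0 hp1 h.atoms)
    intro ω hω
    change (1 : ℂ) * _ ∈ LogForms ⊔ F
    rw [one_mul]
    exact mem_of_bad hω

end Pool.Agent.Results.MP_0c330e_nt.PolynomialsInPi
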